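import Mathlib
import Pool.Agent.Lib.MP_892329_co.Match

/-!
# Colouring diameter graphs with few close triples
-/

set_option autoImplicit false

namespace Pool.Agent.Results.MP_892329_co.ClosenessBound

open Finset

/-- The diameter graph `G(K)` of a finite set of points: its vertices are the points of `K`, and
two different points are adjacent exactly when their distance is the diameter of `K`. -/
def diamGraph {d : ℕ} (K : Finset (EuclideanSpace ℝ (Fin d))) : SimpleGraph K where
  Adj x y := x ≠ y ∧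
    dist (x : EuclideanSpace ℝ (Fin d)) y = Metric.diam (K : Set (EuclideanSpace ℝ (Fin d)))
  symm := ⟨fun x y h => ⟨h.1.symm, by rw [dist_comm]; exact h.2⟩⟩
  loopless := ⟨fun x h => h.1 rfl⟩

/-- The closeness of two points of `K`: it is `0` if the points are equal, and
`1 - |x - y| ^ 2 / D ^ 2` if they are different, where `D` is the diameter of `K`. -/
noncomputable def closeness {d : ℕ} (K : Finset (EuclideanSpace ℝ (Fin d))) (x y : K) : ℝ :=
  open Classical in
  if x = y then 0
  else 1 - dist (x : EuclideanSpace ℝ (Fin d)) y ^ 2 /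
    Metric.diam (K : Set (EuclideanSpace ℝ (Fin d))) ^ 2

/-- The sum, over all ordered triples of points of `K`, of the products of the three
closenesses. -/
noncomputable def tripleSum {d : ℕ} (K : Finset (EuclideanSpace ℝ (Fin d))) : ℝ :=
  ∑ x : K, ∑ y : K, ∑ z : K, closeness K x y * closeness K y z * closeness K z x

/-- The dimension of the affine hull of `K`. -/
noncomputable def affineDim {d : ℕ} (K : Finset (EuclideanSpace ℝ (Fin d))) : ℕ :=
  Module.finrank ℝ (vectorSpan ℝ (K : Set (EuclideanSpace ℝ (Fin d))))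

theorem result {d : ℕ} (K : Finset (EuclideanSpace ℝ (Fin d))) (hK : 2 ≤ K.card) :
    (diamGraph K).Colorable (affineDim K + 1 + ⌊tripleSum K / 2⌋₊) ∧
    ((∀ x y z : K, x ≠ y → y ≠ z → z ≠ x →
        (diamGraph K).Adj x y ∨ (diamGraph K).Adj y z ∨ (diamGraph K).Adj z x) →
      (diamGraph K).Colorable (affineDim K + 1) ∧ (diamGraph K).Colorable (d + 1)) := by
  classical
  obtain ⟨D, hD⟩ : ∃ D : ℝ, D = Metric.diam (K : Set (EuclideanSpace ℝ (Fin d))) := ⟨_, rfl⟩
  have hbdd : Bornology.IsBounded (K : Set (EuclideanSpace ℝ (Fin d))) :=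
    K.finite_toSet.isBounded
  have hle : ∀ x y : K, dist (x : EuclideanSpace ℝ (Fin d)) y ≤ D := fun x y =>
    hD ▸ Metric.dist_le_diam_of_mem hbdd x.2 y.2
  obtain ⟨x0, hx0, x1, hx1, hne⟩ := Finset.one_lt_card.1 hK
  have hDpos : 0 < D := lt_of_lt_of_le (dist_pos.2 hne) (hle ⟨x0, hx0⟩ ⟨x1, hx1⟩)
  have hdim : affineDim K ≤ d := by
    have := Submodule.finrank_le (vectorSpan ℝ (K : Set (EuclideanSpace ℝ (Fin d))))
    rwa [finrank_euclideanSpace_fin] at this
  -- the scaled points
  obtain ⟨p, hp⟩ : ∃ p : K → vectorSpan ℝ (K : Set (EuclideanSpace ℝ (Fin d))),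
      ∀ x, p x = D⁻¹ • ⟨(x : EuclideanSpace ℝ (Fin d)) -ᵥ x0,
        vsub_mem_vectorSpan ℝ x.2 hx0⟩ := ⟨fun x => _, fun x => rfl⟩
  have hdist : ∀ x y : K, ‖p x - p y‖ = D⁻¹ * dist (x : EuclideanSpace ℝ (Fin d)) y := by
    intro x y
    rw [hp, hp, ← smul_sub, norm_smul, Real.norm_of_nonneg (inv_nonneg.2 hDpos.le),
      dist_eq_norm]
    congr 1
    have e : (x : EuclideanSpace ℝ (Fin d)) - y =
        ((x : EuclideanSpace ℝ (Fin d)) -ᵥ x0) - ((y : EuclideanSpace ℝ (Fin d)) -ᵥ x0) := by
      simp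
    rw [e]
    rfl
  have hle1 : ∀ x y : K, ‖p x - p y‖ ≤ 1 := by
    intro x y
    rw [hdist, inv_mul_le_iff₀ hDpos, mul_one]
    exact hle x y
  have hadj : ∀ x y : K, (diamGraph K).Adj x y → ‖p x - p y‖ = 1 := by
    intro x y h
    rw [hdist, h.2, ← hD, inv_mul_cancel₀ hDpos.ne']
  have hclose : ∀ x y : K, Lib.MP_892329_co.cl p x y = closeness K x y := by
    intro x y
    rw [Lib.MP_892329_co.cl_apply, closeness, hdist, ← hD]
    split_ifs
    · rfl
    · field_simp
  have htri : Lib.MP_892329_co.tri p = tripleSum K := by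
    unfold Lib.MP_892329_co.tri tripleSum
    simp only [hclose]
  have hmain := Lib.MP_892329_co.main_scaled p hle1 (diamGraph K) hadj
  rw [htri, Fintype.card_coe] at hmain
  refine ⟨hmain.1, ?_⟩
  intro hind
  have hzero : tripleSum K = 0 := by
    unfold tripleSum
    refine Finset.sum_eq_zero fun x _ => Finset.sum_eq_zero fun y _ =>
      Finset.sum_eq_zero fun z _ => ?_
    have h0 : ∀ a b : K, (diamGraph K).Adj a b → closeness K a b = 0 := by
      intro a b h
      rw [closeness, if_neg h.1, h.2, ← hD]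
      field_simp
      ring
    by_cases hxy : x = y
    · rw [hxy]; simp [closeness]
    by_cases hyz : y = z
    · rw [hyz]; simp [closeness]
    by_cases hzx : z = x
    · rw [hzx]; simp [closeness]
    rcases hind x y z hxy hyz hzx with h | h | h
    · rw [h0 _ _ h]; ring
    · rw [h0 _ _ h]; ring
    · rw [h0 _ _ h]; ring
  rw [hzero] at hmain
  simp only [zero_div, Nat.floor_zero, add_zero] at hmain
  exact ⟨hmain.1, hmain.1.mono (Nat.add_le_add_right hdim 1)⟩

end Pool.Agent.Results.MP_892329_co.ClosenessBound
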