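import Mathlib
import Pool.Agent.Lib.MP_892329_co.SF.LinC
import Pool.Agent.Lib.MP_892329_co.SF.Step

/-!
# Stress-free geometric graphs in `R^d` are `(2 - 1/100000) d` colourable for large `d`
-/

set_option autoImplicit false

namespace Pool.Agent.Results.MP_892329_co.StressFreeBound

open Finset

/-- The diameter graph `G(K)` of a finite set of points: its vertices are the points of `K`, and
two different points are adjacent exactly when their distance is the diameter of `K`. -/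
def diamGraph {d : ℕ} (K : Finset (EuclideanSpace ℝ (Fin d))) : SimpleGraph K where
  Adj x y := x ≠ y ∧
    dist (x : EuclideanSpace ℝ (Fin d)) y = Metric.diam (K : Set (EuclideanSpace ℝ (Fin d)))
  symm := ⟨fun x y h => ⟨h.1.symm, by rw [dist_comm]; exact h.2⟩⟩
  loopless := ⟨fun x h => h.1 rfl⟩

/-- A geometric graph `G` on the finite set of points `K` is stress-free: the only symmetric
weights `w`, zero off the edges of `G`, with `∑ u, w u v (u - v) = 0` for every vertex `v` are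
zero. -/
def StressFree {d : ℕ} (K : Finset (EuclideanSpace ℝ (Fin d))) (G : SimpleGraph K) : Prop :=
  ∀ w : K → K → ℝ, (∀ x y, w x y = w y x) → (∀ x y, ¬ G.Adj x y → w x y = 0) →
    (∀ v : K, ∑ u : K, w u v • ((u : EuclideanSpace ℝ (Fin d)) - v) = 0) → ∀ x y, w x y = 0

theorem result : ∃ d₀ : ℕ, ∀ d : ℕ, d₀ ≤ d → ∀ K : Finset (EuclideanSpace ℝ (Fin d)),
    (∀ G : SimpleGraph K, StressFree K G → G.Colorable ⌊(2 - 1 / 100000 : ℝ) * d⌋₊) ∧
    (StressFree K (diamGraph K) → (diamGraph K).Colorable ⌊(2 - 1 / 100000 : ℝ) * d⌋₊) := by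
  classical
  obtain ⟨d1, hd1⟩ := MP892329.SF.exists_colProp
  refine ⟨max d1 100000, fun d hd K => ?_⟩
  have key : ∀ G : SimpleGraph K, StressFree K G →
      G.Colorable ⌊(2 - 1 / 100000 : ℝ) * d⌋₊ := by
    intro G hG
    have hd2 : 100000 ≤ d := le_trans (le_max_right _ _) hd
    have hdr : (100000 : ℝ) ≤ d := by exact_mod_cast hd2
    obtain ⟨hF1, hF2⟩ := MP892329.SF.linC K G hG
    have hk1 : ((⌊(2 - 1 / 100000 : ℝ) * d⌋₊ : ℕ) : ℝ) ≤ (2 - 1 / 100000 : ℝ) * d :=
      Nat.floor_le (by nlinarith)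
    have hk2 : (2 - 1 / 100000 : ℝ) * d < (⌊(2 - 1 / 100000 : ℝ) * d⌋₊ : ℕ) + 1 :=
      Nat.lt_floor_add_one _
    obtain ⟨f, hf⟩ := MP892329.SF.step d ⌊(2 - 1 / 100000 : ℝ) * d⌋₊ (by omega)
      (by nlinarith) (by nlinarith) (hd1 d (le_trans (le_max_left _ _) hd)) G hF1 hF2 univ
    exact ⟨SimpleGraph.Coloring.mk f (fun {x y} hxy => hf x (mem_univ x) y (mem_univ y) hxy)⟩
  exact ⟨key, key (diamGraph K)⟩

end Pool.Agent.Results.MP_892329_co.StressFreeBound
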